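import Mathlib
import Pool.Agent.Helper889.Nc.Fol
import Pool.Agent.Y130.NP.Fin

set_option autoImplicit false

namespace Pool.Agent.Results.MP_059b7e_al.TorsionQuotients

/-! ### Definitions -/

/-- The vertices of the binary rooted tree: words in the letters `false` (the letter `0`) and
`true` (the letter `1`). -/
abbrev Word := List Bool

/-- The automorphism `a`: `a(xw) = (1-x)w`. -/
def a : Word → Word
  | [] => []
  | x :: w => (!x) :: w

/-- `β(0) = β(1) = a`, `β(2) = 1`. -/
def beta (i : Fin 3) (w : Word) : Word := if i = 2 then w else a w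

/-- `ζ(0) = ζ(2) = a`, `ζ(1) = 1`. -/
def zeta (i : Fin 3) (w : Word) : Word := if i = 1 then w else a w

/-- `δ(0) = 1`, `δ(1) = δ(2) = a`. -/
def delta (i : Fin 3) (w : Word) : Word := if i = 0 then w else a w

/-- For a sequence `ω = ω_1 ω_2 …` (here `ω 0` is `ω_1`) and `θ = β, ζ, δ`, the automorphism `x_ω`
with `x_ω(0w) = 0 θ(ω_1)(w)` and `x_ω(1w) = 1 x_{σω}(w)`, where `σ` is the left shift. -/
def directed (θ : Fin 3 → Word → Word) : (ℕ → Fin 3) → Word → Word
  | _, [] => []
  | ω, false :: w => false :: θ (ω 0) w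
  | ω, true :: w => true :: directed θ (fun n => ω (n + 1)) w

theorem a_invol : Function.Involutive a := by
  intro w
  cases w <;> simp [a]

theorem directed_invol (θ : Fin 3 → Word → Word) (hθ : ∀ i, Function.Involutive (θ i)) (ω : ℕ → Fin 3) :
    Function.Involutive (directed θ ω) := by
  intro w
  induction w generalizing ω with
  | nil => rfl
  | cons x w ih =>
    cases x with
    | false => simp only [directed, hθ (ω 0) w]
    | true => simp only [directed, ih]

theorem beta_invol (i : Fin 3) : Function.Involutive (beta i) := by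
  intro w
  unfold beta
  split_ifs
  · rfl
  · exact a_invol w

theorem zeta_invol (i : Fin 3) : Function.Involutive (zeta i) := by
  intro w
  unfold zeta
  split_ifs
  · rfl
  · exact a_invol w

theorem delta_invol (i : Fin 3) : Function.Involutive (delta i) := by
  intro w
  unfold delta
  split_ifs
  · rfl
  · exact a_invol w

/-- The surjection of the free group `F₄` on `a, b, c, d` (numbered `0, 1, 2, 3`) onto the group
`G_ω ≤ Perm(Word)`, sending `a, b, c, d` to `a, b_ω, c_ω, d_ω`. -/
def rep (ω : ℕ → Fin 3) : FreeGroup (Fin 4) →* Equiv.Perm Word :=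
  FreeGroup.lift ![a_invol.toPerm, (directed_invol beta beta_invol ω).toPerm,
    (directed_invol zeta zeta_invol ω).toPerm, (directed_invol delta delta_invol ω).toPerm]

/-- `N_X = ⋂_{ω ∈ X} N_ω`, where `N_ω` is the kernel of `F₄ → G_ω`. -/
def N (X : Set (ℕ → Fin 3)) : Subgroup (FreeGroup (Fin 4)) := ⨅ ω ∈ X, (rep ω).ker

instance (X : Set (ℕ → Fin 3)) : (N X).Normal :=
  Subgroup.normal_iInf_normal fun _ => Subgroup.normal_iInf_normal fun _ => MonoidHom.normal_ker _

/-- The quotient `F₄ / N_X` of the universal group `𝒩`; it is `𝒩` for `X = Ω`. -/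
abbrev UG (X : Set (ℕ → Fin 3)) : Type := FreeGroup (Fin 4) ⧸ N X

open Classical in
/-- `E` is a Folner sequence in the group `M`: the sets `E n` are finite and nonempty and
`|g E_n △ E_n| / |E_n| → 0` for every `g ∈ M`. -/
def IsFolner {M : Type} [Group M] (E : ℕ → Finset M) : Prop :=
  (∀ n, (E n).Nonempty) ∧
    ∀ g : M, Filter.Tendsto (fun n => ((symmDiff ((E n).image fun x => g * x) (E n)).card : ℝ) / (E n).card)
      Filter.atTop (nhds 0)

/-- `m` is a left invariant finitely additive probability measure on all subsets of `M`. -/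
def IsMean {M : Type} [Group M] (m : Set M → ℝ) : Prop :=
  (∀ A, 0 ≤ m A) ∧ m Set.univ = 1 ∧ (∀ A B, Disjoint A B → m (A ∪ B) = m A + m B) ∧
    ∀ (g : M) A, m ((fun x => g * x) '' A) = m A

/-- The group `M` is not amenable: it has no Folner sequence, and there is no left invariant
finitely additive probability measure on it. -/
def NonAmenable (M : Type) [Group M] : Prop :=
  (¬ ∃ E : ℕ → Finset M, IsFolner E) ∧ ¬ ∃ m : Set M → ℝ, IsMean m

/-- The concatenation `uω` of a finite word and a sequence. -/
def cat (u : List (Fin 3)) (ω : ℕ → Fin 3) : ℕ → Fin 3 := fun n => u.getD n (ω (n - u.length))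

/-! ### Proof -/

open Pool.Agent.Y130.NP in
theorem beta_eq (i : Fin 3) (w : Word) : beta i w = if act 0 i then aF w else w := by
  have ha : ∀ w, a w = aF w := fun w => by cases w <;> rfl
  fin_cases i <;> simp [beta, act, ha]

open Pool.Agent.Y130.NP in
theorem zeta_eq (i : Fin 3) (w : Word) : zeta i w = if act 1 i then aF w else w := by
  have ha : ∀ w, a w = aF w := fun w => by cases w <;> rfl
  fin_cases i <;> simp [zeta, act, ha]

open Pool.Agent.Y130.NP in
theorem delta_eq (i : Fin 3) (w : Word) : delta i w = if act 2 i then aF w else w := by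
  have ha : ∀ w, a w = aF w := fun w => by cases w <;> rfl
  fin_cases i <;> simp [delta, act, ha]

open Pool.Agent.Y130.NP in
theorem directed_eq (k : Fin 3) (θ : Fin 3 → Word → Word) (hθ : ∀ i w, θ i w = if act k i then aF w else w)
    (w : Word) : ∀ ω, directed θ ω w = genF k ω w := by
  induction w with
  | nil => intro ω; rfl
  | cons x w ih =>
    intro ω
    cases x with
    | false => simp only [directed, genF, hθ]
    | true => simp only [directed, genF, ih]

open Pool.Agent.Y130.NP in
theorem rep_eq (ω : ℕ → Fin 3) : rep ω = phi ω := by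
  unfold rep phi
  congr 1
  funext i
  fin_cases i
  · ext w : 1
    change a w = aF w
    cases w <;> rfl
  · ext w : 1
    exact directed_eq 0 beta beta_eq w ω
  · ext w : 1
    exact directed_eq 1 zeta zeta_eq w ω
  · ext w : 1
    exact directed_eq 2 delta delta_eq w ω

open Pool.Agent.Y130.NP in
theorem N_eq (X : Set (ℕ → Fin 3)) : N X = NX X := by
  unfold N NX
  simp only [rep_eq]

open Pool.Agent.Y130.NP in
theorem cat_eq (u : List (Fin 3)) (ω : ℕ → Fin 3) : cat u ω = pre u ω := by
  funext n
  exact (pre_eq u ω n).symm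

theorem folner_mean {M : Type} [Group M] (E : ℕ → Finset M) (hE : IsFolner E) : ∃ m : Set M → ℝ, IsMean m := by
  classical
  exact Pool.Agent.Helper889.Nc.mean_of_folner E hE.1 hE.2

open Pool.Agent.Y130.NP in
theorem nonamenable_of {X : Set (ℕ → Fin 3)} (h : ¬ Pool.Agent.Y130.NC.HasMn (FreeGroup (Fin 4) ⧸ NX X)) :
    NonAmenable (UG X) := by
  have h2 : ¬ ∃ m : Set (UG X) → ℝ, IsMean m := by
    intro hm
    apply h
    have e : N X = NX X := N_eq X
    exact Pool.Agent.Y130.NC.mn_quot (QuotientGroup.quotientMulEquivOfEq e).toMonoidHom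
      (QuotientGroup.quotientMulEquivOfEq e).surjective hm
  exact ⟨fun ⟨E, hE⟩ => h2 (folner_mean E hE), h2⟩

open Pool.Agent.Y130.NP in
theorem torsion_of {X : Set (ℕ → Fin 3)} (h : ∀ g : FreeGroup (Fin 4) ⧸ NX X, ∃ n, 0 < n ∧ g ^ n = 1) (g : UG X) :
    ∃ n : ℕ, 0 < n ∧ g ^ n = 1 := by
  have e : N X = NX X := N_eq X
  obtain ⟨n, hn, h1⟩ := h (QuotientGroup.quotientMulEquivOfEq e g)
  refine ⟨n, hn, (QuotientGroup.quotientMulEquivOfEq e).injective ?_⟩
  rw [map_pow, h1, map_one]

open Pool.Agent.Y130.NP in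
/-- Let `Ω = {0,1,2}^ℕ`.

1. If the closure of `X ⊂ Ω` contains all the sequences `u ω` with `ω ∈ ∏ I_n`, where `u` is a finite
word and `I_0, I_1, …` a sequence of sets of letters of period `p` with `∏_{n<p} |I_n| > 2^p`, then
`F₄ / N_X` is not amenable.

2. In particular it is not amenable if the closure of `X` has an interior point (for instance for
`X = Ω`: the universal group `𝒩`).

3. For every `r > 2` there is a countable `X` with at most `C r^n` words of length `n` among the
beginnings of its elements, such that the group `F₄ / N_X` is a torsion group and not amenable. -/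
theorem result :
    (∀ (X : Set (ℕ → Fin 3)) (u : List (Fin 3)) (p : ℕ) (I : ℕ → Finset (Fin 3)), (∀ n, I (n + p) = I n) →
      2 ^ p < ∏ n ∈ Finset.range p, (I n).card →
      (∀ ω : ℕ → Fin 3, (∀ n, ω n ∈ I n) → cat u ω ∈ closure X) → NonAmenable (UG X)) ∧
    (∀ X : Set (ℕ → Fin 3), (interior (closure X)).Nonempty → NonAmenable (UG X)) ∧
    (∀ r : ℝ, 2 < r → ∃ X : Set (ℕ → Fin 3), X.Countable ∧
      (∃ C : ℝ, ∀ n : ℕ, (Set.ncard {w : Fin n → Fin 3 | ∃ ω ∈ X, ∀ i : Fin n, ω i = w i} : ℝ) ≤ C * r ^ n) ∧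
      (∀ g : UG X, ∃ n : ℕ, 0 < n ∧ g ^ n = 1) ∧ NonAmenable (UG X)) := by
  refine ⟨?_, ?_, ?_⟩
  · intro X u p I hper hcard hX
    refine nonamenable_of (main2 p I hper hcard X u fun ω hω => ?_)
    rw [← cat_eq]
    exact hX ω hω
  · intro X hX
    obtain ⟨u, hu⟩ := interior_cyl hX
    refine nonamenable_of (main2 1 (fun _ => Finset.univ) (fun _ => rfl) ?_ X u fun ω _ => hu ω)
    simp
  · intro r hr
    obtain ⟨l, hl⟩ := exists_l r hr
    obtain ⟨hp, hne⟩ := ne_of_card (9 + l) (pat l) (pat_per l) (pat_card l)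
    obtain ⟨X, hX1, hX2, hX3⟩ := exists_dense (pat l) hne
    have hm := main1 (9 + l) (pat l) (pat_per l) (pat_card l) (pat_force l)
    refine ⟨X, hX1, ⟨3 ^ (9 + l), fun n => ?_⟩, torsion_of (hm.2 X hX2), nonamenable_of (hm.1 X [] hX3)⟩
    refine le_trans (by exact_mod_cast begs (pat l) X hX2 n)
      (growth (9 + l) hp (fun n => (pat l n).card) (fun n => by rw [pat_per]) (fun n => ?_) r (by linarith) ?_ n)
    · have := Finset.card_le_univ (pat l n)
      rwa [Fintype.card_fin] at this
    · rw [pat_prod]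
      push_cast
      exact hl

end Pool.Agent.Results.MP_059b7e_al.TorsionQuotients
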